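import Mathlib

set_option autoImplicit false

open Filter Topology MeasureTheory

namespace Pool.Agent.Results.MP_1da119_pr.Diverges

/-- Unnormalised target law: `j⁻²` on the stair, zero off it. -/
noncomputable def w (x : ℕ × ℕ) : ℝ :=
  if 1 ≤ x.2 ∧ (x.1 = x.2 ∨ x.1 = x.2 + 1) then 1 / (x.2 : ℝ) ^ 2 else 0

/-- Forward neighbour on the stair. -/
def fwd (x : ℕ × ℕ) : ℕ × ℕ := if x.1 = x.2 then (x.1 + 1, x.2) else (x.1, x.2 + 1)

/-- Backward neighbour on the stair. -/
def bwd (x : ℕ × ℕ) : ℕ × ℕ := if x.1 = x.2 then (x.1, x.2 - 1) else (x.1 - 1, x.2)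

/-- Acceptance probability. -/
noncomputable def acc (x y : ℕ × ℕ) : ℝ := w y / (w y + w x)

/-- One step with parameter `a`: the forward neighbour is proposed with probability
`1/2 + 4/a` and the backward neighbour with probability `1/2 - 4/a`, at every state. -/
noncomputable def K (a : ℝ) (x y : ℕ × ℕ) : ℝ :=
  (if y = fwd x then (1 / 2 + 4 / a) * acc x (fwd x) else 0) +
  (if y = bwd x then (1 / 2 - 4 / a) * acc x (bwd x) else 0) +
  (if y = x then 1 - (1 / 2 + 4 / a) * acc x (fwd x) - (1 / 2 - 4 / a) * acc x (bwd x) else 0)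

def St (x : ℕ × ℕ) : Prop := 1 ≤ x.2 ∧ (x.1 = x.2 ∨ x.1 = x.2 + 1)

instance (x : ℕ × ℕ) : Decidable (St x) := by unfold St; infer_instance

noncomputable def u (A n : ℕ) : ℝ := 1 / (A : ℝ) * (1 / 12) ^ (2 * A + 1 - n)

noncomputable def V (A n : ℕ) : ℝ := ∏ m ∈ Finset.range n, (1 - u A m)

noncomputable def κ (A : ℕ) : ℝ := 1 / (25 * (A : ℝ) * 12 ^ (2 * A + 1))

lemma u_pos {A : ℕ} (hA : 8 ≤ A) (n : ℕ) : 0 < u A n := by
  have : (8 : ℝ) ≤ A := by exact_mod_cast hA
  unfold u; positivity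

lemma u_le {A : ℕ} (hA : 8 ≤ A) (n : ℕ) : u A n ≤ 1 / 8 := by
  have h : (8 : ℝ) ≤ A := by exact_mod_cast hA
  have h1 : ((1 : ℝ) / 12) ^ (2 * A + 1 - n) ≤ 1 := pow_le_one₀ (by norm_num) (by norm_num)
  have h2 : 1 / (A : ℝ) ≤ 1 / 8 := one_div_le_one_div_of_le (by norm_num) h
  have h3 : 0 < 1 / (A : ℝ) := by positivity
  unfold u; nlinarith

lemma V_ge {A : ℕ} (hA : 8 ≤ A) (n : ℕ) : (7 / 8) ^ n ≤ V A n := by
  have := Finset.prod_le_prod (s := Finset.range n) (f := fun _ => (7 / 8 : ℝ))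
    (g := fun m => 1 - u A m) (fun _ _ => by norm_num) (fun m _ => by linarith [u_le hA m])
  rwa [Finset.prod_const, Finset.card_range] at this

lemma V_le {A : ℕ} (hA : 8 ≤ A) (n : ℕ) : V A n ≤ 1 :=
  Finset.prod_le_one (fun m _ => by linarith [u_le hA m]) (fun m _ => by linarith [u_pos hA m])

lemma V_pos {A : ℕ} (hA : 8 ≤ A) (n : ℕ) : 0 < V A n :=
  lt_of_lt_of_le (by positivity) (V_ge hA n)

lemma κ_pos {A : ℕ} (hA : 8 ≤ A) : 0 < κ A := by
  have h : (8 : ℝ) ≤ A := by exact_mod_cast hA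
  unfold κ; positivity

lemma κ_le {A : ℕ} (hA : 8 ≤ A) (n : ℕ) : 25 * κ A ≤ u A n := by
  have h : (8 : ℝ) ≤ A := by exact_mod_cast hA
  have h1 : ((1 : ℝ) / 12) ^ (2 * A + 1) ≤ (1 / 12) ^ (2 * A + 1 - n) :=
    pow_le_pow_of_le_one (by norm_num) (by norm_num) (by omega)
  have h2 : 25 * κ A = 1 / (A : ℝ) * (1 / 12) ^ (2 * A + 1) := by
    unfold κ; rw [one_div_pow]; field_simp
  rw [h2, u]; gcongr

lemma key {A : ℕ} (hA : 8 ≤ A) (n : ℕ) (p q : ℝ) (hp : 1 / 10 ≤ p) (hq0 : 0 ≤ q) (hq : q ≤ 1 / 2)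
    (hg : 2 * A + 1 ≤ n → 1 / 4 + 1 / (A : ℝ) ≤ p ∧ q ≤ 1 / 4) :
    p * V A (n + 2) + q * V A n + (1 - p - q) * V A (n + 1) ≤ (1 - κ A) * V A (n + 1) := by
  have h : (8 : ℝ) ≤ A := by exact_mod_cast hA
  have e1 : V A (n + 1) = V A n * (1 - u A n) := Finset.prod_range_succ _ _
  have e2 : V A (n + 2) = V A (n + 1) * (1 - u A (n + 1)) := Finset.prod_range_succ _ _
  have h0 := V_pos hA n
  have a1 := u_pos hA n; have a2 := u_le hA n
  have b1 := u_pos hA (n + 1); have b2 := u_le hA (n + 1)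
  have k1 := κ_pos hA; have k2 := κ_le hA (n + 1)
  have main : q * u A n + κ A * (1 - u A n) ≤ p * u A (n + 1) * (1 - u A n) := by
    by_cases hn : 2 * A + 1 ≤ n
    · obtain ⟨h1, h2⟩ := hg hn
      have e3 : u A n = 1 / (A : ℝ) := by rw [u, show 2 * A + 1 - n = 0 by omega]; simp
      have e4 : u A (n + 1) = 1 / (A : ℝ) := by rw [u, show 2 * A + 1 - (n + 1) = 0 by omega]; simp
      have k3 : κ A ≤ (1 / (A : ℝ)) ^ 2 / 2 := by
        have h3 : (A : ℝ) ≤ 12 ^ (2 * A + 1) := by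
          have : A < 12 ^ (2 * A + 1) :=
            lt_of_le_of_lt (by omega) (Nat.lt_pow_self (n := 2 * A + 1) (by norm_num))
          exact_mod_cast this.le
        rw [κ, one_div_pow, div_div]
        exact one_div_le_one_div_of_le (by positivity) (by nlinarith)
      rw [e3] at a1 a2 ⊢
      rw [e4]
      set v := 1 / (A : ℝ)
      have h5 : (1 / 4 + v) * (v * (1 - v)) ≤ p * (v * (1 - v)) := by
        gcongr; exact mul_nonneg a1.le (by linarith)
      nlinarith [mul_pos a1 a1]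
    · have e3 : u A n = u A (n + 1) / 12 := by
        rw [u, u, show 2 * A + 1 - n = (2 * A + 1 - (n + 1)) + 1 by omega, pow_succ]; ring
      have h5 : 1 / 10 * (u A (n + 1) * (1 - u A n)) ≤ p * (u A (n + 1) * (1 - u A n)) := by
        gcongr; exact mul_nonneg b1.le (by linarith)
      nlinarith [mul_pos a1 b1, mul_pos a1 k1]
  rw [e2, e1]
  nlinarith [mul_le_mul_of_nonneg_left main h0.le]

noncomputable def VE (A : ℕ) (x : ℕ × ℕ) : ENNReal :=
  if St x then ENNReal.ofReal (V A (x.1 + x.2)) else ⊤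

lemma tsum_one (z : ℕ × ℕ) (c : ℝ) (F : ℕ × ℕ → ENNReal) :
    ∑' y, ENNReal.ofReal (if y = z then c else 0) * F y = ENNReal.ofReal c * F z := by
  rw [tsum_eq_single z]
  · simp
  · intro y hy; simp [hy]

lemma drift {A : ℕ} (hA : 8 ≤ A) (a : ℝ) (ha : 8 ≤ a) (haA : a ≤ A) (x : ℕ × ℕ) :
    ∑' y, ENNReal.ofReal (K a x y) * VE A y ≤ ENNReal.ofReal (1 - κ A) * VE A x := by
  have hAr : (8 : ℝ) ≤ A := by exact_mod_cast hA
  have k1 := κ_pos hA; have k2 := κ_le hA 0; have k3 := u_le hA 0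
  by_cases hx : St x
  swap
  · rw [VE, if_neg hx, ENNReal.mul_top (by simp; linarith)]; exact le_top
  have h1 : ∑' y, ENNReal.ofReal (K a x y) * VE A y ≤
      ENNReal.ofReal ((1 / 2 + 4 / a) * acc x (fwd x)) * VE A (fwd x) +
      ENNReal.ofReal ((1 / 2 - 4 / a) * acc x (bwd x)) * VE A (bwd x) +
      ENNReal.ofReal (1 - (1 / 2 + 4 / a) * acc x (fwd x) - (1 / 2 - 4 / a) * acc x (bwd x)) *
        VE A x := by
    rw [← tsum_one, ← tsum_one, ← tsum_one, ← ENNReal.tsum_add, ← ENNReal.tsum_add]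
    refine ENNReal.tsum_le_tsum fun y => ?_
    rw [← add_mul, ← add_mul, K]
    gcongr
    exact ENNReal.ofReal_add_le.trans (by gcongr; exact ENNReal.ofReal_add_le)
  refine h1.trans ?_
  have d1 : 4 / (A : ℝ) ≤ 4 / a := by gcongr
  have d2 : 4 / a ≤ 1 / 2 := by rw [div_le_iff₀ (by linarith)]; linarith
  have d3 : 0 < 1 / (A : ℝ) := by positivity
  have d4 : 4 / (A : ℝ) = 4 * (1 / (A : ℝ)) := by ring
  obtain ⟨i, j⟩ := x
  obtain ⟨hj, hi⟩ := hx
  simp only at hj hi
  have hjr : (1 : ℝ) ≤ j := by exact_mod_cast hj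
  have fin : ∀ (n : ℕ) (α β : ℝ) (Z : ENNReal), i + j = n + 1 → St (fwd (i, j)) →
      (fwd (i, j)).1 + (fwd (i, j)).2 = n + 2 →
      acc (i, j) (fwd (i, j)) = α → acc (i, j) (bwd (i, j)) = β →
      ENNReal.ofReal ((1 / 2 - 4 / a) * β) * VE A (bwd (i, j)) =
        ENNReal.ofReal ((1 / 2 - 4 / a) * β) * ENNReal.ofReal (V A n) →
      1 / 5 ≤ α → α ≤ 1 → 0 ≤ β → β ≤ 1 → 1 / 2 - 1 / (2 * (j : ℝ)) ≤ α → β ≤ 1 / 2 + 1 / (j : ℝ) →
      ENNReal.ofReal ((1 / 2 + 4 / a) * acc (i, j) (fwd (i, j))) * VE A (fwd (i, j)) +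
      ENNReal.ofReal ((1 / 2 - 4 / a) * acc (i, j) (bwd (i, j))) * VE A (bwd (i, j)) +
      ENNReal.ofReal (1 - (1 / 2 + 4 / a) * acc (i, j) (fwd (i, j)) -
        (1 / 2 - 4 / a) * acc (i, j) (bwd (i, j))) * VE A (i, j) ≤
      ENNReal.ofReal (1 - κ A) * VE A (i, j) := by
    intro n α β _ hn hs hf hα hβ hb c1 c2 c3 c4 c5 c6
    have p1 : 0 ≤ (1 / 2 + 4 / a) * α := by nlinarith
    have p2 : 0 ≤ (1 / 2 - 4 / a) * β := by nlinarith
    have p3 : 0 ≤ 1 - (1 / 2 + 4 / a) * α - (1 / 2 - 4 / a) * β := by nlinarith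
    have hk := key hA n ((1 / 2 + 4 / a) * α) ((1 / 2 - 4 / a) * β) (by nlinarith) p2
      (by nlinarith) (fun hn2 => by
        have hjA : (A : ℝ) ≤ j := by exact_mod_cast (by omega : A ≤ j)
        have e1 : 1 / (j : ℝ) ≤ 1 / (A : ℝ) := one_div_le_one_div_of_le (by linarith) hjA
        have e2 : 1 / (2 * (j : ℝ)) = 1 / 2 * (1 / (j : ℝ)) := by field_simp
        have e3 : 1 / (A : ℝ) ≤ 1 / 8 := one_div_le_one_div_of_le (by norm_num) hAr
        constructor
        · have : (1 / 2 + 4 * (1 / (A : ℝ))) * (1 / 2 - 1 / 2 * (1 / (A : ℝ))) ≤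
              (1 / 2 + 4 / a) * α := by
            apply mul_le_mul <;> linarith
          nlinarith
        · have : (1 / 2 - 4 / a) * β ≤ (1 / 2 - 4 * (1 / (A : ℝ))) * (1 / 2 + 1 / (A : ℝ)) := by
            apply mul_le_mul <;> linarith
          nlinarith)
    have hs0 : St (i, j) := ⟨hj, hi⟩
    rw [hα, hβ, hb, VE, if_pos hs, hf, VE, if_pos hs0]
    simp only [hn]
    have v0 := V_pos hA n; have v1 := V_pos hA (n + 1); have v2 := V_pos hA (n + 2)
    rw [← ENNReal.ofReal_mul p1, ← ENNReal.ofReal_mul p2, ← ENNReal.ofReal_mul p3,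
      ← ENNReal.ofReal_mul (by linarith), ← ENNReal.ofReal_add (by positivity) (by positivity),
      ← ENNReal.ofReal_add (by positivity) (by positivity)]
    exact ENNReal.ofReal_le_ofReal hk
  have hj2 : 0 < 1 / (j : ℝ) := by positivity
  have hj3 : 0 < 1 / (2 * (j : ℝ)) := by positivity
  rcases hi with rfl | rfl
  · have f1 : fwd (i, i) = (i + 1, i) := by simp [fwd]
    have f2 : bwd (i, i) = (i, i - 1) := by simp [bwd]
    have g1 : acc (i, i) (fwd (i, i)) = 1 / 2 := by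
      rw [f1]; simp only [acc, w, hj, true_or, or_true, and_self, if_true]; field_simp; norm_num
    by_cases h1 : i = 1
    · subst h1
      have g2 : acc (1, 1) (bwd (1, 1)) = 0 := by rw [f2]; simp [acc, w]
      exact fin 1 _ _ 0 rfl (by rw [f1]; simp [St]) (by simp [f1]) g1 g2 (by simp)
        (by norm_num) (by norm_num) le_rfl (by norm_num) (by linarith) (by linarith)
    · obtain ⟨k, rfl⟩ : ∃ k, i = k + 1 := ⟨i - 1, by omega⟩
      have hk : 1 ≤ k := by omega
      have hkr : (1 : ℝ) ≤ k := by exact_mod_cast hk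
      have g2 : acc (k + 1, k + 1) (bwd (k + 1, k + 1)) =
          ((k : ℝ) + 1) ^ 2 / (((k : ℝ) + 1) ^ 2 + (k : ℝ) ^ 2) := by
        rw [f2]; simp only [acc, w, hj, hk, add_tsub_cancel_right, true_or, or_true, and_self,
          if_true]
        push_cast; field_simp
      refine fin (2 * k + 1) _ _ 0 (by ring) (by rw [f1]; simp [St]) (by rw [f1]; simp; ring)
        g1 g2 ?_ (by norm_num) (by norm_num) (by positivity) ?_ (by linarith) ?_
      · rw [f2, VE, if_pos (by simp [St, hk])]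
        simp only [add_tsub_cancel_right]
        congr 3; ring
      · rw [div_le_one (by positivity)]; nlinarith
      · push_cast
        rw [div_add_div _ _ (by norm_num) (by positivity), div_le_div_iff₀ (by positivity)
          (by positivity)]
        nlinarith [mul_nonneg (sq_nonneg (k : ℝ)) (show (0 : ℝ) ≤ k by linarith)]
  · have f1 : fwd (j + 1, j) = (j + 1, j + 1) := by simp [fwd]
    have f2 : bwd (j + 1, j) = (j, j) := by simp [bwd]
    have g1 : acc (j + 1, j) (fwd (j + 1, j)) = (j : ℝ) ^ 2 / ((j : ℝ) ^ 2 + ((j : ℝ) + 1) ^ 2) := by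
      rw [f1]; simp only [acc, w, hj, le_add_iff_nonneg_left, zero_le, true_or, or_true,
        and_self, if_true]
      push_cast; field_simp
    have g2 : acc (j + 1, j) (bwd (j + 1, j)) = 1 / 2 := by
      rw [f2]; simp only [acc, w, hj, true_or, or_true, and_self, if_true]; field_simp; norm_num
    refine fin (2 * j) _ _ 0 (by ring) (by rw [f1]; simp [St]) (by rw [f1]; simp; ring)
      g1 g2 ?_ ?_ ?_ (by norm_num) (by norm_num) ?_ (by linarith)
    · rw [f2, VE, if_pos (by simp [St, hj])]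
      congr 3; simp; ring
    · rw [le_div_iff₀ (by positivity)]; nlinarith
    · rw [div_le_one (by positivity)]; nlinarith
    · rw [div_sub_div _ _ (by norm_num) (by positivity), div_le_div_iff₀ (by positivity)
        (by positivity)]
      nlinarith [mul_nonneg (sq_nonneg (j : ℝ)) (show (0 : ℝ) ≤ j by linarith)]

def g (A : ℕ) : ℕ := (25 * A * 12 ^ (2 * A + 1)) ^ 3

def seq (t : ℕ) : ℕ := 8 + Nat.findGreatest (fun B => g (8 + B) ≤ t) t

lemma seq_mono : Monotone seq := fun _ _ h =>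
  Nat.add_le_add_left (Nat.findGreatest_mono (fun _ hB => le_trans hB h) h) 8

lemma decay (t : ℕ) (ht : g 8 ≤ t) : (1 - κ (seq t)) ^ t ≤ 6 / (t : ℝ) ^ 2 := by
  have h1 : g (seq t) ≤ t :=
    Nat.findGreatest_spec (P := fun B => g (8 + B) ≤ t) (Nat.zero_le t) (by simpa using ht)
  have hA : 8 ≤ seq t := Nat.le_add_right _ _
  have k1 := κ_pos hA; have k2 := κ_le hA 0; have k3 := u_le hA 0
  have ht0 : (0 : ℝ) < t := by
    have : 0 < g 8 := by unfold g; positivity
    exact_mod_cast (by omega : 0 < t)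
  have h2 : (1 - κ (seq t)) ^ t ≤ Real.exp (-(κ (seq t) * t)) := by
    rw [show -(κ (seq t) * t) = t * (-κ (seq t)) by ring, Real.exp_nat_mul]
    exact pow_le_pow_left₀ (by linarith) (by linarith [Real.add_one_le_exp (-κ (seq t))]) t
  have h3 := Real.pow_div_factorial_le_exp (κ (seq t) * t) (by positivity) 3
  have h4 : 1 ≤ κ (seq t) ^ 3 * t := by
    have h5 : ((25 * (seq t : ℝ) * 12 ^ (2 * seq t + 1)) ^ 3) ≤ t := by
      unfold g at h1; exact_mod_cast h1
    have h6 : (8 : ℝ) ≤ seq t := by exact_mod_cast hA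
    rw [κ, one_div_pow, one_div_mul_eq_div, le_div_iff₀ (by positivity)]; linarith
  refine h2.trans ?_
  rw [Real.exp_neg, inv_eq_one_div, div_le_div_iff₀ (Real.exp_pos _) (by positivity)]
  norm_num [Nat.factorial] at h3
  nlinarith [mul_le_mul_of_nonneg_right h4 (sq_nonneg (t : ℝ))]

theorem result : ∃ a : ℕ → ℝ, Monotone a ∧ (∀ t, 8 ≤ a t) ∧ Tendsto a atTop atTop ∧
    ∀ (Ω : Type) [MeasurableSpace Ω] (P : Measure Ω) [IsProbabilityMeasure P]
      (X : ℕ → Ω → ℕ × ℕ), (∀ t, Measurable (X t)) → (∀ᵐ ω ∂P, X 0 ω = (1, 1)) →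
      (∀ t x y, P {ω | X t ω = x ∧ X (t + 1) ω = y} =
        P {ω | X t ω = x} * ENNReal.ofReal (K (a (t + 1)) x y)) →
      ∀ᵐ ω ∂P, Tendsto (fun t => (X t ω).2) atTop atTop := by
  refine ⟨fun t => seq t, fun s t h => Nat.cast_le.2 (seq_mono h),
    fun t => (show (8 : ℝ) ≤ (seq t : ℝ) by exact_mod_cast Nat.le_add_right 8 _), ?_, ?_⟩
  · refine tendsto_natCast_atTop_atTop.comp (tendsto_atTop.2 fun B => ?_)
    filter_upwards [eventually_ge_atTop (max B (g (8 + B)))] with t ht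
    have := Nat.le_findGreatest (P := fun B => g (8 + B) ≤ t) (le_of_max_le_left ht)
      (le_of_max_le_right ht)
    unfold seq; omega
  intro Ω _ P _ X hX h0 hK
  have marg : ∀ t y, P {ω | X (t + 1) ω = y} =
      ∑' x, P {ω | X t ω = x} * ENNReal.ofReal (K (seq (t + 1)) x y) := by
    intro t y
    simp only [← hK]
    rw [← measure_iUnion]
    · congr 1; ext ω; simp
    · intro x x' hxx'
      exact Set.disjoint_left.2 fun ω h1 h2 => hxx' (h1.1.symm.trans h2.1)
    · intro x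
      exact (hX t (measurableSet_singleton x)).inter (hX (t + 1) (measurableSet_singleton y))
  have lyap : ∀ A, 8 ≤ A → ∀ t, seq t ≤ A →
      ∑' x, P {ω | X t ω = x} * VE A x ≤ ENNReal.ofReal (1 - κ A) ^ t := by
    intro A hA t
    induction t with
    | zero =>
      intro _
      rw [tsum_eq_single (1, 1)]
      · rw [pow_zero, VE, if_pos (by simp [St])]
        exact mul_le_one' prob_le_one (ENNReal.ofReal_le_one.2 (V_le hA _))
      · intro y hy
        rw [measure_mono_null (t := {ω | ¬ X 0 ω = (1, 1)}) (fun ω h1 h2 => hy (h1.symm.trans h2))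
          h0, zero_mul]
    | succ t ih =>
      intro ht
      have ih' := ih ((seq_mono (Nat.le_succ t)).trans ht)
      simp only [marg, ← ENNReal.tsum_mul_right]
      rw [ENNReal.tsum_comm]
      simp only [mul_assoc, ENNReal.tsum_mul_left]
      calc _ ≤ ∑' x, ENNReal.ofReal (1 - κ A) * (P {ω | X t ω = x} * VE A x) :=
            ENNReal.tsum_le_tsum fun x => by
              rw [mul_left_comm]
              gcongr
              exact drift hA _ (by exact_mod_cast Nat.le_add_right 8 _) (by exact_mod_cast ht) x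
        _ ≤ _ := by rw [ENNReal.tsum_mul_left, pow_succ']; gcongr
  have bound : ∀ M t, P {ω | (X t ω).2 ≤ M} ≤
      ENNReal.ofReal (((g 8 : ℝ) ^ 2 + 24 * (8 / 7) ^ (2 * M + 1)) * (((t + 1 : ℕ) : ℝ) ^ 2)⁻¹) := by
    intro M t
    have hc : (0 : ℝ) < (8 / 7) ^ (2 * M + 1) := by positivity
    by_cases ht : g 8 ≤ t
    · have hA : 8 ≤ seq t := Nat.le_add_right _ _
      have k1 := κ_pos hA; have k2 := κ_le hA 0; have k3 := u_le hA 0
      have h1 : P {ω | (X t ω).2 ≤ M} ≤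
          ∑' x, ENNReal.ofReal ((8 / 7) ^ (2 * M + 1)) * (P {ω | X t ω = x} * VE (seq t) x) := by
        refine le_trans (measure_mono (t := ⋃ x : ℕ × ℕ, {ω | X t ω = x ∧ x.2 ≤ M})
          fun ω hω => Set.mem_iUnion.2 ⟨X t ω, rfl, hω⟩)
          ((measure_iUnion_le _).trans (ENNReal.tsum_le_tsum fun x => ?_))
        by_cases hx : x.2 ≤ M
        · rw [mul_left_comm]
          refine le_trans (measure_mono fun ω hω => hω.1) (le_mul_of_one_le_right' ?_)
          unfold VE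
          split_ifs with hs
          · rw [← ENNReal.ofReal_mul hc.le, ENNReal.one_le_ofReal]
            have h2 := V_ge hA (x.1 + x.2)
            have h3 : ((7 : ℝ) / 8) ^ (2 * M + 1) ≤ (7 / 8) ^ (x.1 + x.2) :=
              pow_le_pow_of_le_one (by norm_num) (by norm_num) (by unfold St at hs; omega)
            have h4 : ((8 : ℝ) / 7) ^ (2 * M + 1) * (7 / 8) ^ (2 * M + 1) = 1 := by
              rw [← mul_pow]; norm_num
            nlinarith
          · rw [ENNReal.mul_top (by simp)]; exact le_top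
        · simp [hx]
      rw [ENNReal.tsum_mul_left] at h1
      refine h1.trans ((mul_le_mul_right (lyap _ hA t le_rfl) _).trans ?_)
      rw [← ENNReal.ofReal_pow (by linarith), ← ENNReal.ofReal_mul hc.le]
      refine ENNReal.ofReal_le_ofReal ?_
      have h2 := decay t ht
      have ht1 : (1 : ℝ) ≤ t := by
        have : 0 < g 8 := by unfold g; positivity
        exact_mod_cast (by omega : 1 ≤ t)
      have h3 : 6 / (t : ℝ) ^ 2 ≤ 24 * (((t + 1 : ℕ) : ℝ) ^ 2)⁻¹ := by
        push_cast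
        rw [← div_eq_mul_inv, div_le_div_iff₀ (by positivity) (by positivity)]; nlinarith
      have h4 : (0 : ℝ) ≤ (g 8 : ℝ) ^ 2 * (((t + 1 : ℕ) : ℝ) ^ 2)⁻¹ := by positivity
      nlinarith [mul_le_mul_of_nonneg_left (h2.trans h3) hc.le]
    · refine prob_le_one.trans (ENNReal.one_le_ofReal.2 ?_)
      have h1 : ((t + 1 : ℕ) : ℝ) ≤ g 8 := by exact_mod_cast (by omega : t + 1 ≤ g 8)
      have h2 : (0 : ℝ) < ((t + 1 : ℕ) : ℝ) := by positivity
      rw [← div_eq_mul_inv, le_div_iff₀ (by positivity)]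
      nlinarith
  have bc : ∀ M, ∀ᵐ ω ∂P, ∀ᶠ t in atTop, ω ∉ {ω | (X t ω).2 ≤ M} := by
    intro M
    refine ae_eventually_notMem (ne_top_of_le_ne_top ?_ (ENNReal.tsum_le_tsum (bound M)))
    exact Summable.tsum_ofReal_ne_top
      (((summable_nat_add_iff 1).2 (Real.summable_nat_pow_inv.2 one_lt_two)).mul_left _)
  filter_upwards [ae_all_iff.2 bc] with ω hω
  refine tendsto_atTop.2 fun M => (hω M).mono fun t ht => ?_
  simp only [Set.mem_ofPred_eq, not_le] at ht
  exact ht.le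

end Pool.Agent.Results.MP_1da119_pr.Diverges
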