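import Mathlib

set_option autoImplicit false

open Filter Topology MeasureTheory

namespace Pool.Agent.Results.MP_1da119_pr.Literal

/-- Unnormalised target law: `j⁻²` on the stair, zero off it. -/
noncomputable def w (x : ℕ × ℕ) : ℝ :=
  if 1 ≤ x.2 ∧ (x.1 = x.2 ∨ x.1 = x.2 + 1) then 1 / (x.2 : ℝ) ^ 2 else 0

/-- Forward neighbour on the stair. -/
def fwd (x : ℕ × ℕ) : ℕ × ℕ := if x.1 = x.2 then (x.1 + 1, x.2) else (x.1, x.2 + 1)

/-- Backward neighbour on the stair. -/
def bwd (x : ℕ × ℕ) : ℕ × ℕ := if x.1 = x.2 then (x.1, x.2 - 1) else (x.1 - 1, x.2)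

/-- Acceptance probability. -/
noncomputable def acc (x y : ℕ × ℕ) : ℝ := w y / (w y + w x)

/-- Probability of proposing the forward neighbour, as the problem file words it. -/
noncomputable def pf (a : ℝ) (x : ℕ × ℕ) : ℝ := if x.1 = x.2 then 1 / 2 + 4 / a else 1 / 2 - 4 / a

/-- One step with parameter `a`. -/
noncomputable def K (a : ℝ) (x y : ℕ × ℕ) : ℝ :=
  (if y = fwd x then pf a x * acc x (fwd x) else 0) +
  (if y = bwd x then (1 - pf a x) * acc x (bwd x) else 0) +
  (if y = x then 1 - pf a x * acc x (fwd x) - (1 - pf a x) * acc x (bwd x) else 0)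

def St (x : ℕ × ℕ) : Prop := 1 ≤ x.2 ∧ (x.1 = x.2 ∨ x.1 = x.2 + 1)

lemma w_nonneg (x : ℕ × ℕ) : 0 ≤ w x := by unfold w; split_ifs <;> positivity

lemma w_off {x : ℕ × ℕ} (h : ¬ St x) : w x = 0 := if_neg h

lemma acc_mem (x y : ℕ × ℕ) : 0 ≤ acc x y ∧ acc x y ≤ 1 := by
  have := w_nonneg x; have := w_nonneg y
  exact ⟨by unfold acc; positivity, div_le_one_of_le₀ (by linarith) (by linarith)⟩

lemma bal (a : ℝ) (x y : ℕ × ℕ) :
    w x * (if y = fwd x then pf a x * acc x (fwd x) else 0) =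
      w y * (if x = bwd y then (1 - pf a y) * acc y (bwd y) else 0) := by
  by_cases hx : St x
  · by_cases hy : St y
    · have h1 : y = fwd x ↔ x = bwd y := by
        obtain ⟨i, j⟩ := x; obtain ⟨k, l⟩ := y
        simp only [St, fwd, bwd] at hx hy ⊢
        split_ifs <;> simp only [Prod.mk.injEq] <;> omega
      by_cases h : y = fwd x
      · have h2 : pf a x = 1 - pf a y := by
          obtain ⟨i, j⟩ := x; obtain ⟨k, l⟩ := y
          simp only [St, fwd, pf] at hx hy h ⊢
          split_ifs at h ⊢ <;> simp only [Prod.mk.injEq] at h <;> first | omega | ring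
        rw [if_pos h, if_pos (h1.1 h), ← h, ← h1.1 h, h2, acc, acc, add_comm (w x)]; ring
      · rw [if_neg h, if_neg (mt h1.2 h)]; simp
    · rw [w_off hy, zero_mul]
      split_ifs with h
      · rw [← h, acc, w_off hy]; simp
      · simp
  · rw [w_off hx, zero_mul]
    split_ifs with h
    · rw [← h, acc, w_off hx]; simp
    · simp

lemma rev (a : ℝ) (x y : ℕ × ℕ) : w x * K a x y = w y * K a y x := by
  simp only [K, mul_add, bal a x y, ← bal a y x]
  by_cases h : y = x
  · subst h; ring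
  · rw [if_neg h, if_neg (Ne.symm h)]; ring

lemma tsum_one (z : ℕ × ℕ) (c : ℝ) :
    ∑' y, ENNReal.ofReal (if y = z then c else 0) = ENNReal.ofReal c := by
  rw [tsum_eq_single z]
  · simp
  · intro y hy; simp [hy]

lemma row (a : ℝ) (ha : 8 ≤ a) (x : ℕ × ℕ) : ∑' y, ENNReal.ofReal (K a x y) ≤ 1 := by
  have d2 : 4 / a ≤ 1 / 2 := by rw [div_le_iff₀ (by linarith)]; linarith
  have d3 : 0 ≤ 4 / a := by positivity
  have p0 : 0 ≤ pf a x ∧ pf a x ≤ 1 := by unfold pf; split_ifs <;> constructor <;> linarith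
  have a1 := acc_mem x (fwd x); have a2 := acc_mem x (bwd x)
  have p1 : 0 ≤ pf a x * acc x (fwd x) := mul_nonneg p0.1 a1.1
  have p2 : 0 ≤ (1 - pf a x) * acc x (bwd x) := mul_nonneg (by linarith) a2.1
  have p3 : 0 ≤ 1 - pf a x * acc x (fwd x) - (1 - pf a x) * acc x (bwd x) := by nlinarith
  have h1 : ∑' y, ENNReal.ofReal (K a x y) ≤ ENNReal.ofReal (pf a x * acc x (fwd x)) +
      ENNReal.ofReal ((1 - pf a x) * acc x (bwd x)) +
      ENNReal.ofReal (1 - pf a x * acc x (fwd x) - (1 - pf a x) * acc x (bwd x)) := by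
    rw [← tsum_one (fwd x), ← tsum_one (bwd x), ← tsum_one x (1 - _ - _), ← ENNReal.tsum_add,
      ← ENNReal.tsum_add]
    refine ENNReal.tsum_le_tsum fun y => ?_
    rw [K]
    exact ENNReal.ofReal_add_le.trans (by gcongr; exact ENNReal.ofReal_add_le)
  refine h1.trans (le_of_eq ?_)
  rw [← ENNReal.ofReal_add p1 p2, ← ENNReal.ofReal_add (add_nonneg p1 p2) p3]
  simp

theorem result (a : ℕ → ℝ) (ha : ∀ t, 8 ≤ a t)
    (Ω : Type) [MeasurableSpace Ω] (P : Measure Ω) [IsProbabilityMeasure P]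
    (X : ℕ → Ω → ℕ × ℕ) (hX : ∀ t, Measurable (X t)) (h0 : ∀ᵐ ω ∂P, X 0 ω = (1, 1))
    (hK : ∀ t x y, P {ω | X t ω = x ∧ X (t + 1) ω = y} =
      P {ω | X t ω = x} * ENNReal.ofReal (K (a (t + 1)) x y)) :
    P {ω | Tendsto (fun t => (X t ω).2) atTop atTop} = 0 := by
  have marg : ∀ t y, P {ω | X (t + 1) ω = y} =
      ∑' x, P {ω | X t ω = x} * ENNReal.ofReal (K (a (t + 1)) x y) := by
    intro t y
    simp only [← hK]
    rw [← measure_iUnion]
    · congr 1; ext ω; simp
    · intro x x' hxx'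
      exact Set.disjoint_left.2 fun ω h1 h2 => hxx' (h1.1.symm.trans h2.1)
    · intro x
      exact (hX t (measurableSet_singleton x)).inter (hX (t + 1) (measurableSet_singleton y))
  have dom : ∀ t y, P {ω | X t ω = y} ≤ ENNReal.ofReal (w y) := by
    intro t
    induction t with
    | zero =>
      intro y
      by_cases hy : y = (1, 1)
      · subst hy; simpa [w] using prob_le_one
      · rw [measure_mono_null (t := {ω | ¬ X 0 ω = (1, 1)})
          (fun ω h1 h2 => hy (h1.symm.trans h2)) h0]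
        exact zero_le
    | succ t ih =>
      intro y
      rw [marg]
      calc _ ≤ ∑' x, ENNReal.ofReal (w y) * ENNReal.ofReal (K (a (t + 1)) y x) :=
            ENNReal.tsum_le_tsum fun x => by
              rw [← ENNReal.ofReal_mul (w_nonneg y), ← rev, ENNReal.ofReal_mul (w_nonneg x)]
              gcongr; exact ih x
        _ ≤ _ := by
            rw [ENNReal.tsum_mul_left]
            exact mul_le_of_le_one_right' (row _ (ha _) y)
  have col : ∀ t j, P {ω | (X t ω).2 = j} ≤ ENNReal.ofReal (2 * ((j : ℝ) ^ 2)⁻¹) := by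
    intro t j
    have h1 : {ω | (X t ω).2 = j} ⊆ ({ω | X t ω = (j, j)} ∪ {ω | X t ω = (j + 1, j)}) ∪
        ⋃ x : {x : ℕ × ℕ // ¬ St x}, {ω | X t ω = x.1} := by
      intro ω hω
      by_cases hs : St (X t ω)
      · left
        simp only [Set.mem_ofPred_eq, Set.mem_union, Prod.ext_iff] at hω ⊢
        unfold St at hs; omega
      · right; exact Set.mem_iUnion.2 ⟨⟨_, hs⟩, rfl⟩
    have h2 : P (⋃ x : {x : ℕ × ℕ // ¬ St x}, {ω | X t ω = x.1}) = 0 :=
      measure_iUnion_null fun x => by simpa [w_off x.2] using dom t x.1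
    refine (measure_mono h1).trans ((measure_union_le _ _).trans ?_)
    rw [h2, add_zero]
    refine (measure_union_le _ _).trans ((add_le_add (dom t _) (dom t _)).trans ?_)
    rw [← ENNReal.ofReal_add (w_nonneg _) (w_nonneg _)]
    refine ENNReal.ofReal_le_ofReal ?_
    have : (0 : ℝ) ≤ ((j : ℝ) ^ 2)⁻¹ := by positivity
    simp only [w, one_div]
    split_ifs <;> linarith
  have hs : Summable fun j : ℕ => 2 * ((j : ℝ) ^ 2)⁻¹ :=
    (Real.summable_nat_pow_inv.2 one_lt_two).mul_left _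
  have tail : ∀ M : ℕ, P {ω | Tendsto (fun t => (X t ω).2) atTop atTop} ≤
      ENNReal.ofReal (∑' k, 2 * (((k + M : ℕ) : ℝ) ^ 2)⁻¹) := by
    intro M
    have h1 : {ω | Tendsto (fun t => (X t ω).2) atTop atTop} ⊆
        ⋃ T : ℕ, {ω | ∀ t, T ≤ t → M ≤ (X t ω).2} := by
      intro ω hω
      obtain ⟨T, hT⟩ := eventually_atTop.1 (tendsto_atTop.1 hω M)
      exact Set.mem_iUnion.2 ⟨T, hT⟩
    refine (measure_mono h1).trans ?_
    rw [Monotone.measure_iUnion (s := fun T : ℕ => {ω | ∀ t, T ≤ t → M ≤ (X t ω).2})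
      (fun S T h ω hω t ht => hω t (h.trans ht))]
    refine iSup_le fun T => ?_
    have h2 : {ω | ∀ t, T ≤ t → M ≤ (X t ω).2} ⊆ ⋃ k : ℕ, {ω | (X T ω).2 = k + M} := by
      intro ω hω
      have := hω T le_rfl
      exact Set.mem_iUnion.2 ⟨(X T ω).2 - M, by simp only [Set.mem_ofPred_eq]; omega⟩
    refine (measure_mono h2).trans ((measure_iUnion_le _).trans ?_)
    rw [ENNReal.ofReal_tsum_of_nonneg (fun k => by positivity)
      ((summable_nat_add_iff (f := fun j : ℕ => 2 * ((j : ℝ) ^ 2)⁻¹) M).2 hs)]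
    exact ENNReal.tsum_le_tsum fun k => col T (k + M)
  have lim := ENNReal.tendsto_ofReal (tendsto_sum_nat_add fun j : ℕ => 2 * ((j : ℝ) ^ 2)⁻¹)
  rw [ENNReal.ofReal_zero] at lim
  exact le_antisymm (ge_of_tendsto' lim tail) zero_le

end Pool.Agent.Results.MP_1da119_pr.Literal
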